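import Pool.Agent.Y317.CB.TH
import Pool.Agent.Y574.CB.NIL

/-!
# The trace on three strands for a generic deformation parameter

(helper941, task PH-TR3 of helper482's project PH.)  `(m_t) ↦ ∑ F3 ^ t (Th m_t)` is an isomorphism
from the sum of `N` copies of `T2 N` onto `T3 N`.
-/

set_option autoImplicit false
set_option linter.all false

namespace Pool.Agent.Y941.PH

open Finset Pool.Agent.Y472 Pool.Agent.Y317.CB

variable {N : ℕ} {w l : ℂ}

theorem qi_N (h : Rt N w) : qi w (N : ℤ) = 0 := by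
  unfold qi cb
  rw [zpow_natCast, h.neg]; norm_num

theorem qx (h : Rt N w) (y : ℕ → ℂ) (hy : ∀ a, N ≤ a → y a = 0) (a : ℕ) (ha : N ≤ a) :
    qi w a * y (a - 1) = 0 := by
  rcases eq_or_lt_of_le ha with rfl | h1
  · rw [qi_N h, zero_mul]
  · rw [hy (a - 1) (by omega), mul_zero]

theorem F3_T3 (h : Rt N w) {x : V3} (hx : x ∈ T3 N) : F3 w l x ∈ T3 N := by
  intro a b c habc
  rw [F3_apply, F2_apply]
  have e1 : qi w a * x (a - 1) b c = 0 := by
    rcases habc with h1 | h1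
    · exact qx h (fun a => x a b c) (fun a ha => hx a b c (Or.inl ha)) a h1
    · rw [hx (a - 1) b c (Or.inr h1), mul_zero]
  have e2 : qi w b * x a (b - 1) c = 0 := by
    rcases habc with h1 | h1 | h1
    · rw [hx a (b - 1) c (Or.inl h1), mul_zero]
    · exact qx h (fun b => x a b c) (fun b hb => hx a b c (Or.inr (Or.inl hb))) b h1
    · rw [hx a (b - 1) c (Or.inr (Or.inr h1)), mul_zero]
  have e3 : qi w c * x a b (c - 1) = 0 := by
    rcases habc with h1 | h1 | h1
    · rw [hx a b (c - 1) (Or.inl h1), mul_zero]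
    · rw [hx a b (c - 1) (Or.inr (Or.inl h1)), mul_zero]
    · exact qx h (fun c => x a b c) (fun c hc => hx a b c (Or.inr (Or.inr hc))) c h1
  rw [e1, e2, mul_assoc, e3, mul_zero, add_zero, mul_zero, add_zero]

theorem F3_iter_T3 (h : Rt N w) {x : V3} (hx : x ∈ T3 N) (t : ℕ) : (F3 w l)^[t] x ∈ T3 N := by
  induction t with
  | zero => exact hx
  | succ t ih => rw [Function.iterate_succ_apply']; exact F3_T3 h ih

theorem qi_ne (h : Rt N w) {t : ℕ} (ht : t + 1 < N) : qi w ((t : ℤ) + 1) ≠ 0 := by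
  unfold qi cb
  intro h0
  have hw := w_ne h
  have hy : w ^ ((t : ℤ) + 1) ≠ 0 := zpow_ne_zero _ hw
  have h1 : w ^ ((t : ℤ) + 1) * w ^ ((t : ℤ) + 1) = 1 := by
    have h2 : w ^ ((t : ℤ) + 1) = (w ^ ((t : ℤ) + 1))⁻¹ := sub_eq_zero.1 h0
    have h3 : w ^ ((t : ℤ) + 1) * (w ^ ((t : ℤ) + 1))⁻¹ = 1 := mul_inv_cancel₀ hy
    rwa [← h2] at h3
  have h2 : w ^ ((t : ℤ) + 1) = w ^ (t + 1) := by
    rw [← zpow_natCast]; push_cast; rfl
  rw [h2] at h1
  have h3 : (w ^ 2) ^ (t + 1) = 1 := by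
    rw [← pow_mul, two_mul, pow_add, h1]
  have h4 := h.prim.dvd_of_pow_eq_one _ h3
  exact absurd (Nat.le_of_dvd (by omega) h4) (by omega)

theorem cb3_ne (h : Rt N w) (hl : Gl l) (k : ℤ) : cb (l ^ 3 * w ^ k) ≠ 0 := by
  unfold cb
  intro h0
  have hy : l ^ 3 * w ^ k ≠ 0 := mul_ne_zero (pow_ne_zero _ hl.ne) (zpow_ne_zero _ (w_ne h))
  have h1 : (l ^ 3 * w ^ k) * (l ^ 3 * w ^ k) = 1 := by
    have h2 : l ^ 3 * w ^ k = (l ^ 3 * w ^ k)⁻¹ := sub_eq_zero.1 h0
    have h3 : (l ^ 3 * w ^ k) * (l ^ 3 * w ^ k)⁻¹ = 1 := mul_inv_cancel₀ hy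
    rwa [← h2] at h3
  have h2 := congrArg norm h1
  rw [norm_mul, norm_mul, norm_zpow, h.nrm, one_zpow, mul_one, norm_one, norm_pow, ← pow_add] at h2
  exact hl.nrm ((pow_eq_one_iff_of_nonneg (norm_nonneg l) (by norm_num)).1 h2)

/-- the diagonal operator with `E3 (F3 ^ (t + 1) (Th m)) = F3 ^ t (Th (dg t m))` -/
noncomputable def dg (w l : ℂ) (t : ℕ) (m : V2) : V2 := fun a b =>
  (qi w (t + 1) * cb (l ^ 3 * w ^ (-2 - 2 * ((a + b : ℕ) : ℤ) - (t + 1)))) * m a b

theorem dg_T2 {m : V2} (hm : m ∈ T2 N) (t : ℕ) : dg w l t m ∈ T2 N := by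
  intro a b hab
  unfold dg
  rw [hm a b hab, mul_zero]

/-- `m ↦ F3 ^ t (Th m)` -/
noncomputable def G (w l : ℂ) (t : ℕ) : V2 →ₗ[ℂ] V3 := ((F3 w l) ^ t : V3 →ₗ[ℂ] V3) ∘ₗ Th w l

theorem G_apply (t : ℕ) (m : V2) : G w l t m = (F3 w l)^[t] (Th w l m) := by
  unfold G
  rw [LinearMap.comp_apply, Module.End.pow_apply]

/-- the homogeneous components -/
def cp (D : ℕ) (m : V2) : V2 := fun a b => if a + b = D then m a b else 0

theorem sum_V2 {ι : Type} (s : Finset ι) (f : ι → V2) (a b : ℕ) :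
    (∑ i ∈ s, f i) a b = ∑ i ∈ s, f i a b := by
  rw [Finset.sum_apply, Finset.sum_apply]

theorem sum_V3 {ι : Type} (s : Finset ι) (f : ι → V3) (a b c : ℕ) :
    (∑ i ∈ s, f i) a b c = ∑ i ∈ s, f i a b c := by
  rw [Finset.sum_apply, Finset.sum_apply, Finset.sum_apply]

theorem sum_cp {m : V2} (hm : m ∈ T2 N) (c : ℕ → ℂ) :
    ∑ D ∈ range (2 * N), c D • cp D m = fun a b => c (a + b) * m a b := by
  funext a b
  rw [sum_V2]
  have h1 : ∀ D ∈ range (2 * N), (c D • cp D m) a b = if a + b = D then c D * m a b else 0 := by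
    intro D _
    simp only [Pi.smul_apply, smul_eq_mul, cp]
    split_ifs
    · rfl
    · rw [mul_zero]
  rw [sum_congr rfl h1, sum_ite_eq]
  by_cases h2 : a + b ∈ range (2 * N)
  · rw [if_pos h2]
  · rw [if_neg h2]
    rw [mem_range] at h2
    rw [hm a b (by omega), mul_zero]

theorem E3_G (hT : S_TH) (hN : S_NIL) (h : Rt N w) (hl : Gl l) {m : V2} (hm : m ∈ T2 N) (t : ℕ) :
    E3 w l (G w l (t + 1) m) = G w l t (dg w l t m) := by
  obtain ⟨-, -, -, -, -, hE⟩ := hT hN N w l h hl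
  have h1 : m = ∑ D ∈ range (2 * N), (1 : ℂ) • cp D m := by
    rw [sum_cp hm fun _ => 1]
    funext a b
    rw [one_mul]
  have h2 : dg w l t m = ∑ D ∈ range (2 * N),
      (qi w (t + 1) * cb (l ^ 3 * w ^ (-2 - 2 * (D : ℤ) - (t + 1)))) • cp D m := by
    rw [sum_cp hm fun D => qi w (t + 1) * cb (l ^ 3 * w ^ (-2 - 2 * (D : ℤ) - (t + 1)))]
    rfl
  rw [h2, map_sum]
  conv_lhs => rw [h1]
  rw [map_sum, map_sum]
  refine sum_congr rfl fun D _ => ?_
  rw [one_smul, map_smul, G_apply, G_apply]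
  refine hE (cp D m) D t ?_
  intro a b hab
  unfold cp
  rw [if_neg hab]

theorem G_inj (hT : S_TH) (hN : S_NIL) (h : Rt N w) (hl : Gl l) : ∀ n ≤ N, ∀ m : ℕ → V2,
    (∀ t, m t ∈ T2 N) → ∑ t ∈ range n, G w l t (m t) = 0 → ∀ t < n, m t = 0 := by
  obtain ⟨hE, hS, -, -, -, -⟩ := hT hN N w l h hl
  intro n
  induction n with
  | zero => intro _ m _ _ t ht; omega
  | succ n ih =>
    intro hn m hm hs
    have h1 : ∀ t < n, m (t + 1) = 0 := by
      have h2 : ∑ t ∈ range n, G w l t (dg w l t (m (t + 1))) = 0 := by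
        have h3 := congrArg (E3 w l) hs
        rw [sum_range_succ', map_add, map_sum, map_zero] at h3
        have h4 : E3 w l (G w l 0 (m 0)) = 0 := by
          rw [G_apply]; exact hE (m 0)
        rw [h4, add_zero] at h3
        rw [← h3]
        exact sum_congr rfl fun t _ => (E3_G hT hN h hl (hm (t + 1)) t).symm
      have h3 := ih (by omega) (fun t => dg w l t (m (t + 1))) (fun t => dg_T2 (hm _) t) h2
      intro t ht
      have h4 := h3 t ht
      funext a b
      have h5 := congrFun (congrFun h4 a) b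
      simp only [dg, Pi.zero_apply] at h5
      rcases mul_eq_zero.1 h5 with h6 | h6
      · exact absurd h6 (mul_ne_zero (qi_ne h (by omega)) (cb3_ne h hl _))
      · exact h6
    intro t ht
    rcases t with _ | t
    · rw [sum_range_succ'] at hs
      have h2 : ∑ t ∈ range n, G w l (t + 1) (m (t + 1)) = 0 := by
        refine sum_eq_zero fun t ht => ?_
        rw [h1 t (mem_range.1 ht), map_zero]
      rw [h2, zero_add, G_apply] at hs
      have h3 : Th w l (m 0) = 0 := hs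
      rw [← hS (m 0), h3]; rfl
    · exact h1 t (by omega)

/-! ### The matrices -/

/-- a basis vector of three strands -/
def d3 (a b c : ℕ) : V3 := fun x y z => if x = a ∧ y = b ∧ z = c then 1 else 0

theorem T2_basis {m : V2} (hm : m ∈ T2 N) :
    ∑ p : Fin N × Fin N, m p.1 p.2 • dl p.1 p.2 = m := by
  funext a b
  rw [sum_V2]
  by_cases hab : a < N ∧ b < N
  · rw [sum_eq_single (⟨⟨a, hab.1⟩, ⟨b, hab.2⟩⟩ : Fin N × Fin N)]
    · simp [dl]
    · intro p _ hp
      have : ¬ (a = p.1 ∧ b = p.2) := by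
        rintro ⟨h1, h2⟩
        apply hp
        ext
        · exact h1.symm
        · exact h2.symm
      simp only [Pi.smul_apply, smul_eq_mul, dl]
      rw [if_neg this, mul_zero]
    · intro h1; exact absurd (mem_univ _) h1
  · rw [hm a b (by omega)]
    refine sum_eq_zero fun p _ => ?_
    have : ¬ (a = p.1 ∧ b = p.2) := by
      rintro ⟨h1, h2⟩
      exact hab ⟨h1 ▸ p.1.2, h2 ▸ p.2.2⟩
    simp only [Pi.smul_apply, smul_eq_mul, dl]
    rw [if_neg this, mul_zero]

theorem T3_basis {x : V3} (hx : x ∈ T3 N) :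
    ∑ p : Fin N × (Fin N × Fin N), x p.1 p.2.1 p.2.2 • d3 p.1 p.2.1 p.2.2 = x := by
  funext a b c
  rw [sum_V3]
  by_cases hab : a < N ∧ b < N ∧ c < N
  · rw [sum_eq_single (⟨⟨a, hab.1⟩, ⟨b, hab.2.1⟩, ⟨c, hab.2.2⟩⟩ : Fin N × (Fin N × Fin N))]
    · simp [d3]
    · intro p _ hp
      have : ¬ (a = p.1 ∧ b = p.2.1 ∧ c = p.2.2) := by
        rintro ⟨h1, h2, h3⟩
        apply hp
        ext
        · exact h1.symm
        · exact h2.symm
        · exact h3.symm
      simp only [Pi.smul_apply, smul_eq_mul, d3]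
      rw [if_neg this, mul_zero]
    · intro h1; exact absurd (mem_univ _) h1
  · rw [hx a b c (by omega)]
    refine sum_eq_zero fun p _ => ?_
    have : ¬ (a = p.1 ∧ b = p.2.1 ∧ c = p.2.2) := by
      rintro ⟨h1, h2, h3⟩
      exact hab ⟨h1 ▸ p.1.2, h2 ▸ p.2.1.2, h3 ▸ p.2.2.2⟩
    simp only [Pi.smul_apply, smul_eq_mul, d3]
    rw [if_neg this, mul_zero]

theorem dl_T2 (p : Fin N × Fin N) : dl p.1 p.2 ∈ T2 N := by
  intro a b hab
  unfold dl
  rw [if_neg]
  rintro ⟨h1, h2⟩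
  have := p.1.2
  have := p.2.2
  omega

/-- the matrix of the family `F3 ^ t (Th (dl q s))` -/
noncomputable def mB (N : ℕ) (w l : ℂ) :
    Matrix (Fin N × (Fin N × Fin N)) (Fin N × (Fin N × Fin N)) ℂ :=
  fun p j => G w l j.1 (dl j.2.1 j.2.2) p.1 p.2.1 p.2.2

theorem mB_unit (hT : S_TH) (hN : S_NIL) (h : Rt N w) (hl : Gl l) : IsUnit (mB N w l) := by
  rw [← Matrix.mulVec_injective_iff_isUnit]
  rw [← Matrix.coe_mulVecLin, ← LinearMap.ker_eq_bot, LinearMap.ker_eq_bot']
  intro v hv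
  let m : ℕ → V2 := fun t => if ht : t < N then
    ∑ p : Fin N × Fin N, v (⟨t, ht⟩, p) • dl p.1 p.2 else 0
  have hm : ∀ t, m t ∈ T2 N := by
    intro t
    by_cases ht : t < N
    · simp only [m, dif_pos ht]
      exact sum_mem fun p _ => Submodule.smul_mem _ _ (dl_T2 p)
    · simp only [m, dif_neg ht]
      exact zero_mem _
  have hGT : ∀ t, ∀ y ∈ T2 N, G w l t y ∈ T3 N := by
    intro t y hy
    rw [G_apply]
    exact F3_iter_T3 h ((hT hN N w l h hl).2.2.2.1 y hy) t
  have hsum : ∑ t ∈ range N, G w l t (m t) = 0 := by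
    have hz : ∑ t ∈ range N, G w l t (m t) ∈ T3 N := sum_mem fun t _ => hGT t _ (hm t)
    funext a b c
    by_cases hab : a < N ∧ b < N ∧ c < N
    · have h1 := congrFun hv (⟨a, hab.1⟩, ⟨b, hab.2.1⟩, ⟨c, hab.2.2⟩)
      rw [Matrix.mulVecLin_apply, Matrix.mulVec, Pi.zero_apply, dotProduct,
        Fintype.sum_prod_type] at h1
      change (∑ t ∈ range N, G w l t (m t)) a b c = 0
      rw [sum_V3, sum_range, ← h1]
      refine sum_congr rfl fun t _ => ?_
      have h2 : m t = ∑ p : Fin N × Fin N, v (t, p) • dl p.1 p.2 := by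
        simp only [m, dif_pos t.2]
      rw [h2, map_sum, sum_V3]
      refine sum_congr rfl fun p _ => ?_
      rw [map_smul]
      simp only [Pi.smul_apply, smul_eq_mul, mB]
      rw [mul_comm]
    · exact hz a b c (by omega)
  have h0 := G_inj hT hN h hl N le_rfl m hm hsum
  funext j
  obtain ⟨t, q, s⟩ := j
  have h1 := congrFun (congrFun (h0 t t.2) q) s
  simp only [m, dif_pos t.2] at h1
  rw [sum_V2, sum_eq_single (⟨q, s⟩ : Fin N × Fin N)] at h1
  · simpa [dl] using h1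
  · intro p _ hp
    have : ¬ ((q : ℕ) = p.1 ∧ (s : ℕ) = p.2) := by
      rintro ⟨h1, h2⟩
      apply hp
      ext
      · exact h1.symm
      · exact h2.symm
    simp only [Pi.smul_apply, smul_eq_mul, dl]
    rw [if_neg this, mul_zero]
  · intro h2; exact absurd (mem_univ _) h2

/-- the trace on three strands -/
theorem trace3 (hT : S_TH) (hN : S_NIL) (hH : S_HATM) (h : Rt N w) (hl : Gl l)
    (X : V3 →ₗ[ℂ] V3) (hX : Gd3 N w l X) :
    ∑ a ∈ range N, ∑ b ∈ range N, ∑ c ∈ range N, X (d3 a b c) a b c =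
      N * ∑ q ∈ range N, ∑ s ∈ range N, hat w l X (dl q s) q s := by
  obtain ⟨-, hXT, hXt⟩ := hH hT hN N w l h hl X X hX hX
  let M3 : Matrix (Fin N × (Fin N × Fin N)) (Fin N × (Fin N × Fin N)) ℂ :=
    fun p p' => X (d3 p'.1 p'.2.1 p'.2.2) p.1 p.2.1 p.2.2
  let M2 : Matrix (Fin N × Fin N) (Fin N × Fin N) ℂ :=
    fun q q' => hat w l X (dl q'.1 q'.2) q.1 q.2
  let K : Matrix (Fin N × (Fin N × Fin N)) (Fin N × (Fin N × Fin N)) ℂ :=
    Matrix.kroneckerMap (· * ·) (1 : Matrix (Fin N) (Fin N) ℂ) M2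
  have hK0 : ∀ (t t' : Fin N) (q q' : Fin N × Fin N),
      K (t, q) (t', q') = (1 : Matrix (Fin N) (Fin N) ℂ) t t' * M2 q q' := fun t t' q q' => rfl
  have hXG : ∀ (t : ℕ) (m : V2), X (G w l t m) = G w l t (hat w l X m) := by
    intro t m
    rw [G_apply, G_apply, ← hXT m]
    induction t with
    | zero => rfl
    | succ t ih => rw [Function.iterate_succ_apply', Function.iterate_succ_apply', hX.f, ih]
  have hmul : M3 * mB N w l = mB N w l * K := by
    ext p j
    obtain ⟨t, q⟩ := j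
    have hv : G w l t (dl q.1 q.2) ∈ T3 N := by
      rw [G_apply]
      exact F3_iter_T3 h ((hT hN N w l h hl).2.2.2.1 _ (dl_T2 q)) t
    have e1 : (M3 * mB N w l) p (t, q) = X (G w l t (dl q.1 q.2)) p.1 p.2.1 p.2.2 := by
      conv_rhs => rw [← T3_basis hv]
      rw [map_sum, sum_V3, Matrix.mul_apply]
      refine sum_congr rfl fun p' _ => ?_
      rw [map_smul]
      simp only [Pi.smul_apply, smul_eq_mul, M3, mB]
      rw [mul_comm]
    have e2 : (mB N w l * K) p (t, q) =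
        G w l t (hat w l X (dl q.1 q.2)) p.1 p.2.1 p.2.2 := by
      conv_rhs => rw [← T2_basis (hXt _ (dl_T2 q))]
      rw [map_sum, sum_V3, Matrix.mul_apply, Fintype.sum_prod_type,
        sum_eq_single t]
      · refine sum_congr rfl fun q' _ => ?_
        rw [map_smul, hK0, Matrix.one_apply_eq, one_mul]
        simp only [Pi.smul_apply, smul_eq_mul, M2, mB]
        rw [mul_comm]
      · intro t' _ ht'
        refine sum_eq_zero fun q' _ => ?_
        rw [hK0, Matrix.one_apply_ne ht', zero_mul, mul_zero]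
      · intro h2; exact absurd (mem_univ _) h2
    rw [e1, e2, hXG]
  have hu := mB_unit hT hN h hl
  have hdet : IsUnit (mB N w l).det := (Matrix.isUnit_iff_isUnit_det _).1 hu
  have htr : M3.trace = K.trace := by
    have h1 : M3 = mB N w l * K * (mB N w l)⁻¹ := by
      rw [← hmul, Matrix.mul_nonsing_inv_cancel_right _ _ hdet]
    rw [h1, Matrix.trace_mul_comm, ← Matrix.mul_assoc, Matrix.nonsing_inv_mul _ hdet,
      Matrix.one_mul]
  have h3 : M3.trace = ∑ a ∈ range N, ∑ b ∈ range N, ∑ c ∈ range N, X (d3 a b c) a b c := by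
    rw [Matrix.trace, Fintype.sum_prod_type, sum_range]
    refine sum_congr rfl fun a _ => ?_
    rw [Fintype.sum_prod_type, sum_range]
    refine sum_congr rfl fun b _ => ?_
    rw [sum_range]
    rfl
  have h2 : M2.trace = ∑ q ∈ range N, ∑ s ∈ range N, hat w l X (dl q s) q s := by
    rw [Matrix.trace, Fintype.sum_prod_type, sum_range]
    refine sum_congr rfl fun a _ => ?_
    rw [sum_range]
    rfl
  have hK : K.trace = N * M2.trace := by
    have := Matrix.trace_kronecker (1 : Matrix (Fin N) (Fin N) ℂ) M2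
    rw [Matrix.trace_one, Fintype.card_fin] at this
    exact this
  rw [← h3, ← h2, htr, hK]

end Pool.Agent.Y941.PH
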