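import Pool.Agent.Y482.Ph.Defs
import Pool.Agent.Y941.PH.TR3a

/-!
# TR3: the trace on three strands for a generic deformation parameter

(helper941, task PH-TR3 of helper482's project PH.)
-/

set_option autoImplicit false

namespace Pool.Agent.Y941.PH

theorem tr3 : Pool.Agent.Y482.Ph.S_TR3 := by
  intro N w l h hl X hX _
  exact trace3 Pool.Agent.Y317.CB.th Pool.Agent.Y574.CB.nil Pool.Agent.Y317.CB.hatm h hl X hX

end Pool.Agent.Y941.PH
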